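import Pool.Agent.QPyth.Main

open Polynomial Pool.Agent.QPyth

namespace Pool.Agent.Results.MP_2c5354_co.AllUnimodal

/-- For all coprime `m > n ≥ 1` there is exactly one continued fraction expansion of `m/n` of odd
length with positive entries, and the three polynomials `𝒜`, `ℬ`, `𝒞` of `m/n` built from it have
unimodal coefficient sequences. -/
theorem result (m n : ℕ) (hn : 1 ≤ n) (hmn : n < m) (hc : m.Coprime n) :
    (∃! a : List ℕ, IsOddCF m n a) ∧
      ∀ a : List ℕ, IsOddCF m n a →
        Unimodal (polyA a) ∧ Unimodal (polyB a) ∧ Unimodal (polyC a) :=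
  ⟨existsUnique_oddCF m n hn hmn hc, fun a ha => main m n hn hmn a ha⟩

end Pool.Agent.Results.MP_2c5354_co.AllUnimodal
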